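import Pool.Agent.N303.LS.Stm

/-! Pointwise bound by the local energy (Bessel's inequality on a cube). -/

set_option autoImplicit false

namespace Pool.Agent.N707.LSCAR

open MeasureTheory
open scoped ENNReal FourierTransform RealInnerProductSpace SchwartzMap
open Pool.Agent.N303.LS

/-- the exponential `exp(2πi m·y)` -/
noncomputable def ex {d : ℕ} (m : Fin d → ℤ) (y : E d) : ℂ :=
  Complex.exp (((2 * Real.pi * ⟪y, pt m⟫ : ℝ) : ℂ) * Complex.I)

/-- the cube -/
def cube (d R : ℕ) : Set (E d) := {y | ∀ j, -(R : ℝ) < y j ∧ y j ≤ R}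

theorem one_dim (R : ℕ) (k : ℤ) :
    ∫ t : ℝ, (Set.Ioc (-(R : ℝ)) R).indicator (fun t : ℝ => Complex.exp (2 * Real.pi * k * t * Complex.I)) t =
      if k = 0 then (2 * R : ℂ) else 0 := by
  rw [integral_indicator measurableSet_Ioc, ← intervalIntegral.integral_of_le (by
    have : (0 : ℝ) ≤ R := Nat.cast_nonneg R
    linarith)]
  split_ifs with hk
  · subst hk
    simp only [Int.cast_zero, mul_zero, zero_mul, Complex.exp_zero, intervalIntegral.integral_const]
    rw [Complex.real_smul]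
    push_cast
    ring
  · have hc : (2 * Real.pi * k * Complex.I : ℂ) ≠ 0 := by
      simp [hk, Real.pi_ne_zero]
    have h1 : ∀ t : ℝ, Complex.exp (2 * Real.pi * k * t * Complex.I) =
        Complex.exp ((2 * Real.pi * k * Complex.I) * t) := fun t => by ring_nf
    simp only [h1]
    rw [integral_exp_mul_complex hc]
    have h2 : Complex.exp ((2 * Real.pi * k * Complex.I) * ((R : ℝ) : ℂ)) = 1 := by
      have := Complex.exp_int_mul_two_pi_mul_I (k * R)
      rw [← this]
      push_cast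
      ring_nf
    have h3 : Complex.exp ((2 * Real.pi * k * Complex.I) * ((-(R : ℝ) : ℝ) : ℂ)) = 1 := by
      have := Complex.exp_int_mul_two_pi_mul_I (k * (-R))
      rw [← this]
      push_cast
      ring_nf
    rw [h2, h3, sub_self, zero_div]

theorem ex_prod {d : ℕ} (m : Fin d → ℤ) (y : E d) : ex m y = ∏ j, Complex.exp (2 * Real.pi * m j * (y j : ℂ) * Complex.I) := by
  unfold ex pt
  rw [← Complex.exp_sum, PiLp.inner_apply]
  congr 1
  push_cast
  rw [Finset.mul_sum, Finset.sum_mul]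
  apply Finset.sum_congr rfl
  intro j _
  simp
  ring

theorem cube_meas (d R : ℕ) : MeasurableSet (cube d R) := by
  have : cube d R = ⋂ j, {y : E d | -(R : ℝ) < y j ∧ y j ≤ R} := by
    ext y
    simp [cube]
  rw [this]
  apply MeasurableSet.iInter
  intro j
  have hm : Measurable (fun y : E d => y j) := by fun_prop
  apply MeasurableSet.inter
  · exact measurableSet_lt measurable_const hm
  · exact measurableSet_le hm measurable_const

theorem cube_int {d : ℕ} (R : ℕ) (k : Fin d → ℤ) :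
    ∫ y in cube d R, ex k y = if k = 0 then ((2 * R : ℂ)) ^ d else 0 := by
  rw [← integral_indicator (cube_meas d R)]
  have h1 : ∀ y : E d, (cube d R).indicator (ex k) y = ∏ j, (Set.Ioc (-(R : ℝ)) R).indicator
      (fun t : ℝ => Complex.exp (2 * Real.pi * k j * t * Complex.I)) (y j) := by
    intro y
    by_cases hy : y ∈ cube d R
    · rw [Set.indicator_of_mem hy, ex_prod]
      apply Finset.prod_congr rfl
      intro j _
      rw [Set.indicator_of_mem (show y j ∈ Set.Ioc (-(R : ℝ)) R from hy j)]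
    · rw [Set.indicator_of_notMem hy]
      symm
      have : ∃ j, ¬ (-(R : ℝ) < y j ∧ y j ≤ R) := by
        by_contra hcon
        push Not at hcon
        exact hy hcon
      obtain ⟨j, hj⟩ := this
      apply Finset.prod_eq_zero (Finset.mem_univ j)
      rw [Set.indicator_of_notMem (show y j ∉ Set.Ioc (-(R : ℝ)) R from hj)]
  simp only [h1]
  have h2 := (PiLp.volume_preserving_ofLp (Fin d)).integral_comp
    (MeasurableEquiv.toLp 2 (Fin d → ℝ)).symm.measurableEmbedding
    (fun z : Fin d → ℝ => ∏ j, (Set.Ioc (-(R : ℝ)) R).indicator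
      (fun t : ℝ => Complex.exp (2 * Real.pi * k j * t * Complex.I)) (z j))
  refine Eq.trans h2 ?_
  rw [integral_fintype_prod_volume_eq_prod (fun j (t : ℝ) => (Set.Ioc (-(R : ℝ)) R).indicator
      (fun t : ℝ => Complex.exp (2 * Real.pi * k j * t * Complex.I)) t)]
  simp only [one_dim]
  split_ifs with hk
  · subst hk
    simp
  · obtain ⟨j, hj⟩ : ∃ j, k j ≠ 0 := by
      by_contra hcon
      push Not at hcon
      exact hk (funext hcon)
    exact Finset.prod_eq_zero (Finset.mem_univ j) (if_neg hj)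

theorem cube_sub (d R : ℕ) : cube d R ⊆ Metric.closedBall 0 (√(d * R ^ 2)) := by
  intro y hy
  rw [mem_closedBall_zero_iff, EuclideanSpace.norm_eq]
  apply Real.sqrt_le_sqrt
  calc ∑ j, ‖y j‖ ^ 2 ≤ ∑ _j : Fin d, (R : ℝ) ^ 2 := by
        apply Finset.sum_le_sum
        intro j _
        rw [Real.norm_eq_abs, sq_abs]
        have := hy j
        nlinarith
    _ = d * (R : ℝ) ^ 2 := by simp

theorem cube_integrable {d R : ℕ} {F : Type} [NormedAddCommGroup F] {f : E d → F} (hf : Continuous f) :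
    IntegrableOn f (cube d R) :=
  (hf.continuousOn.integrableOn_compact (isCompact_closedBall 0 (√(d * R ^ 2)))).mono_set (cube_sub d R)

theorem ex_cont {d : ℕ} (m : Fin d → ℤ) : Continuous (ex m) := by
  unfold ex
  fun_prop

theorem ex_norm {d : ℕ} (m : Fin d → ℤ) (y : E d) : ‖ex m y‖ = 1 := by
  unfold ex
  exact Complex.norm_exp_ofReal_mul_I _

theorem pt_sub {d : ℕ} (m n : Fin d → ℤ) : pt (m - n) = pt m - pt n := by
  unfold pt
  ext j
  simp

theorem ex_conj_mul {d : ℕ} (m n : Fin d → ℤ) (y : E d) : (starRingEnd ℂ) (ex m y) * ex n y = ex (n - m) y := by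
  unfold ex
  rw [← Complex.exp_conj, ← Complex.exp_add, pt_sub, inner_sub_right, map_mul, Complex.conj_ofReal, Complex.conj_I]
  congr 1
  push_cast
  ring

/-- **Bessel's inequality** on the cube. -/
theorem bessel {d R : ℕ} (hR : 0 < R) (G : E d → ℂ) (hG : Continuous G) (S : Finset (Fin d → ℤ)) :
    ∑ m ∈ S, ‖∫ y in cube d R, G y * ex m y‖ ^ 2 ≤ (2 * R : ℝ) ^ d * ∫ y in cube d R, ‖G y‖ ^ 2 := by
  obtain ⟨a, ha⟩ : ∃ a : (Fin d → ℤ) → ℂ, ∀ m, a m = ∫ y in cube d R, G y * ex m y := ⟨_, fun _ => rfl⟩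
  simp only [← ha]
  obtain ⟨L, hL⟩ : ∃ L : ℝ, L = (2 * R : ℝ) ^ d := ⟨_, rfl⟩
  have hL0 : 0 < L := by
    rw [hL]
    have : (0 : ℝ) < R := by exact_mod_cast hR
    positivity
  rw [← hL]
  obtain ⟨T, hT⟩ : ∃ T : E d → ℂ, ∀ y, T y = ∑ m ∈ S, a m * (starRingEnd ℂ) (ex m y) := ⟨_, fun _ => rfl⟩
  have hTc : Continuous T := by
    have : T = fun y => ∑ m ∈ S, a m * (starRingEnd ℂ) (ex m y) := funext hT
    rw [this]
    apply continuous_finsetSum
    intro m _
    exact continuous_const.mul (Complex.continuous_conj.comp (ex_cont m))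
  have hTs : ∀ y, (starRingEnd ℂ) (T y) = ∑ m ∈ S, (starRingEnd ℂ) (a m) * ex m y := by
    intro y
    rw [hT, map_sum]
    apply Finset.sum_congr rfl
    intro m _
    rw [map_mul, Complex.conj_conj]
  have hnn : ∀ z : ℂ, (starRingEnd ℂ) z * z = ((‖z‖ ^ 2 : ℝ) : ℂ) := by
    intro z
    rw [mul_comm, Complex.mul_conj, Complex.normSq_eq_norm_sq]
  have h1 : ∫ y in cube d R, G y * (starRingEnd ℂ) (T y) = ((∑ m ∈ S, ‖a m‖ ^ 2 : ℝ) : ℂ) := by
    have e1 : ∀ y, G y * (starRingEnd ℂ) (T y) = ∑ m ∈ S, (starRingEnd ℂ) (a m) * (G y * ex m y) := by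
      intro y
      rw [hTs, Finset.mul_sum]
      apply Finset.sum_congr rfl
      intro m _
      ring
    simp only [e1]
    have hi : ∀ m ∈ S, Integrable (fun y => (starRingEnd ℂ) (a m) * (G y * ex m y)) (volume.restrict (cube d R)) :=
      fun m _ => cube_integrable (continuous_const.mul (hG.mul (ex_cont m)))
    rw [integral_finsetSum S hi]
    push_cast
    apply Finset.sum_congr rfl
    intro m _
    rw [integral_const_mul, ← ha, hnn]
    push_cast
    rfl
  have h2 : ∫ y in cube d R, T y * (starRingEnd ℂ) (T y) = ((L * ∑ m ∈ S, ‖a m‖ ^ 2 : ℝ) : ℂ) := by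
    have e1 : ∀ y, T y * (starRingEnd ℂ) (T y) =
        ∑ m ∈ S, ∑ n ∈ S, (a m * (starRingEnd ℂ) (a n)) * ex (n - m) y := by
      intro y
      rw [hTs, hT, Finset.sum_mul_sum]
      apply Finset.sum_congr rfl
      intro m _
      apply Finset.sum_congr rfl
      intro n _
      rw [← ex_conj_mul]
      ring
    simp only [e1]
    have hi2 : ∀ m n, Integrable (fun y => (a m * (starRingEnd ℂ) (a n)) * ex (n - m) y) (volume.restrict (cube d R)) :=
      fun m n => cube_integrable (continuous_const.mul (ex_cont _))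
    rw [integral_finsetSum S (fun m _ => integrable_finsetSum S fun n _ => hi2 m n)]
    have e2 : ∀ m ∈ S, ∫ y in cube d R, ∑ n ∈ S, (a m * (starRingEnd ℂ) (a n)) * ex (n - m) y =
        (L : ℂ) * ((‖a m‖ ^ 2 : ℝ) : ℂ) := by
      intro m hm
      rw [integral_finsetSum S (fun n _ => hi2 m n), Finset.sum_eq_single m]
      · rw [integral_const_mul, cube_int, if_pos (sub_self m), ← hnn, hL]
        push_cast
        ring
      · intro n _ hn
        rw [integral_const_mul, cube_int, if_neg (sub_ne_zero.2 hn), mul_zero]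
      · intro h; exact absurd hm h
    rw [Finset.sum_congr rfl e2, ← Finset.mul_sum]
    push_cast
    rfl
  have h3 : ∫ y in cube d R, ‖T y‖ ^ 2 = L * ∑ m ∈ S, ‖a m‖ ^ 2 := by
    have e1 : ∀ y, T y * (starRingEnd ℂ) (T y) = ((‖T y‖ ^ 2 : ℝ) : ℂ) := by
      intro y
      rw [mul_comm, hnn]
    simp only [e1] at h2
    rw [integral_complex_ofReal] at h2
    exact_mod_cast h2
  have h4 : ∫ y in cube d R, (G y * (starRingEnd ℂ) (T y)).re = ∑ m ∈ S, ‖a m‖ ^ 2 := by
    have e1 := Complex.reCLM.integral_comp_comm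
      (cube_integrable (R := R) (hG.mul (Complex.continuous_conj.comp hTc)) : Integrable _ _)
    have e2 : ∫ y in cube d R, (G y * (starRingEnd ℂ) (T y)).re = (∫ y in cube d R, G y * (starRingEnd ℂ) (T y)).re := e1
    rw [e2, h1, Complex.ofReal_re]
  have h5 : ∫ y in cube d R, 2 * (G y * (starRingEnd ℂ) (T y)).re ≤
      ∫ y in cube d R, (L * ‖G y‖ ^ 2 + L⁻¹ * ‖T y‖ ^ 2) := by
    apply integral_mono
    · exact cube_integrable (by fun_prop)
    · exact cube_integrable (by fun_prop)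
    · intro y
      show 2 * (G y * (starRingEnd ℂ) (T y)).re ≤ L * ‖G y‖ ^ 2 + L⁻¹ * ‖T y‖ ^ 2
      have e1 : (G y * (starRingEnd ℂ) (T y)).re ≤ ‖G y‖ * ‖T y‖ := by
        calc _ ≤ ‖G y * (starRingEnd ℂ) (T y)‖ := Complex.re_le_norm _
          _ = _ := by rw [norm_mul, RCLike.norm_conj]
      have e2 : 0 ≤ L⁻¹ * (L * ‖G y‖ - ‖T y‖) ^ 2 := by positivity
      have e3 : L⁻¹ * (L * ‖G y‖ - ‖T y‖) ^ 2 = L * ‖G y‖ ^ 2 - 2 * (‖G y‖ * ‖T y‖) + L⁻¹ * ‖T y‖ ^ 2 := by
        field_simp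
        ring
      linarith
  rw [integral_const_mul, integral_add (cube_integrable (by fun_prop)) (cube_integrable (by fun_prop)),
    integral_const_mul, integral_const_mul, h3, h4] at h5
  have h6 : L⁻¹ * (L * ∑ m ∈ S, ‖a m‖ ^ 2) = ∑ m ∈ S, ‖a m‖ ^ 2 := by
    field_simp
  rw [h6] at h5
  linarith

/-- the inverse Fourier transform of an integrable function is continuous -/
theorem inv_cont {d : ℕ} {F : E d → ℂ} (hF : Integrable F) : Continuous (inv F) := by
  unfold inv
  apply continuous_of_dominated (bound := fun ξ => ‖F ξ‖)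
  · intro x
    exact (Continuous.aestronglyMeasurable (by fun_prop)).mul hF.aestronglyMeasurable
  · intro x
    exact Filter.Eventually.of_forall fun ξ => by rw [norm_mul, Complex.norm_exp_ofReal_mul_I, one_mul]
  · exact hF.norm
  · exact Filter.Eventually.of_forall fun ξ => by fun_prop

/-- the kernel in Fubini's theorem -/
noncomputable def ker {d : ℕ} (K : 𝓢(E d, ℂ)) (F : E d → ℂ) (m : Fin d → ℤ) (x : E d) (ξ y : E d) : ℂ :=
  Complex.exp (((2 * Real.pi * ⟪x - y, ξ⟫ : ℝ) : ℂ) * Complex.I) * (F ξ * (K y * ex m y))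

theorem ker_int {d : ℕ} (K : 𝓢(E d, ℂ)) {F : E d → ℂ} (hF : Integrable F) (m : Fin d → ℤ) (x : E d) :
    Integrable (Function.uncurry (ker K F m x)) (volume.prod volume) := by
  have h1 : Integrable (fun y => K y * ex m y) := by
    apply K.integrable.mono ((K.continuous.mul (ex_cont m)).aestronglyMeasurable)
    refine Filter.Eventually.of_forall fun y => ?_
    show ‖K y * ex m y‖ ≤ ‖K y‖
    rw [norm_mul, ex_norm, mul_one]
  have h2 := hF.mul_prod h1
  apply h2.mono
  · apply AEStronglyMeasurable.mul _ h2.aestronglyMeasurable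
    apply Continuous.aestronglyMeasurable
    fun_prop
  · refine Filter.Eventually.of_forall fun z => ?_
    show ‖Complex.exp (((2 * Real.pi * ⟪x - z.2, z.1⟫ : ℝ) : ℂ) * Complex.I) * (F z.1 * (K z.2 * ex m z.2))‖ ≤ _
    rw [norm_mul, Complex.norm_exp_ofReal_mul_I, one_mul]

theorem ker_left {d : ℕ} (K : 𝓢(E d, ℂ)) (F : E d → ℂ) (m : Fin d → ℤ) (x ξ : E d) :
    ∫ y, ker K F m x ξ y = Complex.exp (((2 * Real.pi * ⟪x, ξ⟫ : ℝ) : ℂ) * Complex.I) *
      (𝓕 (K : E d → ℂ) (ξ - pt m) * F ξ) := by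
  rw [Real.fourier_eq', ← integral_mul_const, ← integral_const_mul]
  apply integral_congr_ae
  refine Filter.Eventually.of_forall fun y => ?_
  show Complex.exp (((2 * Real.pi * ⟪x - y, ξ⟫ : ℝ) : ℂ) * Complex.I) * (F ξ * (K y * ex m y)) =
    Complex.exp (((2 * Real.pi * ⟪x, ξ⟫ : ℝ) : ℂ) * Complex.I) *
      (Complex.exp (((-2 * Real.pi * ⟪y, ξ - pt m⟫ : ℝ) : ℂ) * Complex.I) • K y * F ξ)
  have h1 : Complex.exp (((2 * Real.pi * ⟪x - y, ξ⟫ : ℝ) : ℂ) * Complex.I) * ex m y =
      Complex.exp (((2 * Real.pi * ⟪x, ξ⟫ : ℝ) : ℂ) * Complex.I) *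
      Complex.exp (((-2 * Real.pi * ⟪y, ξ - pt m⟫ : ℝ) : ℂ) * Complex.I) := by
    unfold ex
    rw [← Complex.exp_add, ← Complex.exp_add, inner_sub_left, inner_sub_right]
    congr 1
    push_cast
    ring
  rw [smul_eq_mul]
  linear_combination (F ξ * K y) * h1

theorem term_eq {d : ℕ} (K : 𝓢(E d, ℂ)) {F : E d → ℂ} (hF : Integrable F) (m : Fin d → ℤ) (x : E d) :
    ∫ ξ : E d, Complex.exp (((2 * Real.pi * ⟪x, ξ⟫ : ℝ) : ℂ) * Complex.I) * (𝓕 (K : E d → ℂ) (ξ - pt m) * F ξ) =
      ∫ y : E d, (K y * inv F (x - y)) * ex m y := by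
  have h1 := integral_integral_swap (ker_int K hF m x)
  simp only [ker_left] at h1
  rw [h1]
  apply integral_congr_ae
  refine Filter.Eventually.of_forall fun y => ?_
  show ∫ ξ, Complex.exp (((2 * Real.pi * ⟪x - y, ξ⟫ : ℝ) : ℂ) * Complex.I) * (F ξ * (K y * ex m y)) =
    (K y * ∫ ξ : E d, Complex.exp (((2 * Real.pi * ⟪x - y, ξ⟫ : ℝ) : ℂ) * Complex.I) * F ξ) * ex m y
  rw [← integral_const_mul, ← integral_mul_const]
  apply integral_congr_ae
  refine Filter.Eventually.of_forall fun ξ => ?_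
  show _ = K y * (Complex.exp (((2 * Real.pi * ⟪x - y, ξ⟫ : ℝ) : ℂ) * Complex.I) * F ξ) * ex m y
  ring

theorem inv_psi {d : ℕ} (K : 𝓢(E d, ℂ)) {F : E d → ℂ} (hF : Integrable F) (A : Finset (Fin d → ℤ)) (x : E d) :
    inv (fun ξ => psi K A ξ * F ξ) x = ∑ m ∈ A, ∫ y : E d, (K y * inv F (x - y)) * ex m y := by
  have h1 : ∀ m ∈ A, Integrable (fun ξ : E d => Complex.exp (((2 * Real.pi * ⟪x, ξ⟫ : ℝ) : ℂ) * Complex.I) *
      (𝓕 (K : E d → ℂ) (ξ - pt m) * F ξ)) := by
    intro m _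
    have h2 := (ker_int K hF m x).integral_prod_left
    have h3 : (fun ξ : E d => ∫ y, Function.uncurry (ker K F m x) (ξ, y)) =
        fun ξ : E d => Complex.exp (((2 * Real.pi * ⟪x, ξ⟫ : ℝ) : ℂ) * Complex.I) *
      (𝓕 (K : E d → ℂ) (ξ - pt m) * F ξ) := by
      funext ξ
      exact ker_left K F m x ξ
    rwa [h3] at h2
  rw [Finset.sum_congr rfl (fun m _ => (term_eq K hF m x).symm), ← integral_finsetSum A h1]
  unfold inv
  apply integral_congr_ae
  refine Filter.Eventually.of_forall fun ξ => ?_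
  show Complex.exp (((2 * Real.pi * ⟪x, ξ⟫ : ℝ) : ℂ) * Complex.I) * (psi K A ξ * F ξ) = _
  unfold psi
  rw [Finset.sum_mul, Finset.mul_sum]

theorem t_car : Pool.Agent.N303.LS.S_CAR := by
  intro d M K hK
  obtain ⟨r, hr⟩ : ∃ r : ℝ, tsupport (K : E d → ℂ) ⊆ Metric.closedBall 0 r :=
    hK.isCompact.isBounded.subset_closedBall 0
  obtain ⟨R, hR⟩ := exists_nat_gt (max r 0)
  have hR0 : 0 < R := by
    have : (0 : ℝ) < R := lt_of_le_of_lt (le_max_right r 0) hR
    exact_mod_cast this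
  have hRr : r < R := lt_of_le_of_lt (le_max_left r 0) hR
  have hK0 : ∀ y, y ∉ tsupport (K : E d → ℂ) → K y = 0 := fun y hy => image_eq_zero_of_notMem_tsupport hy
  have hcube : ∀ y, y ∉ cube d R → K y = 0 := by
    intro y hy
    apply hK0
    intro h
    apply hy
    intro j
    have h1 := mem_closedBall_zero_iff.1 (hr h)
    have h2 : |y j| ≤ ‖y‖ := by
      have := PiLp.norm_apply_le y j
      rwa [Real.norm_eq_abs] at this
    have h3 := abs_le.1 (h2.trans h1)
    constructor <;> linarith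
  have hW : ∀ y : E d, 0 < W M y := fun y => by unfold W; positivity
  obtain ⟨B, hB0, hB⟩ : ∃ B : ℝ, 0 < B ∧ ∀ y, ‖K y‖ ^ 2 ≤ B * W M y := by
    obtain ⟨C, hC⟩ := hK.isCompact.exists_bound_of_continuousOn
      (f := fun y : E d => ‖K y‖ ^ 2 * (1 + ‖y‖ ^ 2) ^ M)
      (by
        apply Continuous.continuousOn
        have := K.continuous
        fun_prop)
    refine ⟨|C| + 1, by positivity, fun y => ?_⟩
    by_cases hy : y ∈ tsupport (K : E d → ℂ)
    · have h1 := hC y hy
      rw [Real.norm_eq_abs] at h1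
      have h2 := (le_abs_self _).trans h1
      have h3 : (0 : ℝ) < (1 + ‖y‖ ^ 2) ^ M := by positivity
      unfold W
      rw [← div_eq_mul_inv, le_div_iff₀ h3]
      linarith [le_abs_self C]
    · rw [hK0 y hy, norm_zero]
      have h5 : 0 ≤ (|C| + 1) * W M y := mul_nonneg (by positivity) (hW y).le
      linarith
  refine ⟨(2 * R : ℝ) ^ d * B, by
    have : (0 : ℝ) < R := by exact_mod_cast hR0
    positivity, fun ι _ A V hA hV F hF x => ?_⟩
  have hRp : (0 : ℝ) < R := by exact_mod_cast hR0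
  obtain ⟨G, hG⟩ : ∃ G : E d → ℂ, ∀ y, G y = K y * inv F (x - y) := ⟨_, fun _ => rfl⟩
  have hGc : Continuous G := by
    have : G = fun y => K y * inv F (x - y) := funext hG
    rw [this]
    exact K.continuous.mul ((inv_cont hF).comp (by fun_prop))
  obtain ⟨a, ha⟩ : ∃ a : (Fin d → ℤ) → ℂ, ∀ m, a m = ∫ y in cube d R, G y * ex m y := ⟨_, fun _ => rfl⟩
  have ha2 : ∀ m, ∫ y : E d, (K y * inv F (x - y)) * ex m y = a m := by
    intro m
    rw [ha]
    simp only [hG]
    symm
    apply setIntegral_eq_integral_of_forall_compl_eq_zero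
    intro y hy
    rw [hcube y hy, zero_mul, zero_mul]
  have h1 : ∑ i, ‖inv (fun ξ => psi K (A i) ξ * F ξ) x‖ ^ 2 ≤ V * ((2 * R : ℝ) ^ d * ∫ y in cube d R, ‖G y‖ ^ 2) := by
    have h2 : ∀ i, ‖inv (fun ξ => psi K (A i) ξ * F ξ) x‖ ^ 2 ≤ V * ∑ m ∈ A i, ‖a m‖ ^ 2 := by
      intro i
      rw [inv_psi K hF]
      simp only [ha2]
      calc ‖∑ m ∈ A i, a m‖ ^ 2 ≤ (∑ m ∈ A i, ‖a m‖) ^ 2 := by
            apply pow_le_pow_left₀ (norm_nonneg _) (norm_sum_le _ _)
        _ ≤ (A i).card * ∑ m ∈ A i, ‖a m‖ ^ 2 := sq_sum_le_card_mul_sum_sq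
        _ ≤ _ := by
            apply mul_le_mul_of_nonneg_right _ (Finset.sum_nonneg fun m _ => by positivity)
            exact_mod_cast hV i
    classical
    calc ∑ i, ‖inv (fun ξ => psi K (A i) ξ * F ξ) x‖ ^ 2 ≤ ∑ i, V * ∑ m ∈ A i, ‖a m‖ ^ 2 :=
          Finset.sum_le_sum fun i _ => h2 i
      _ = V * ∑ m ∈ Finset.univ.biUnion A, ‖a m‖ ^ 2 := by
          rw [← Finset.mul_sum, Finset.sum_biUnion (fun i _ j _ hij => hA i j hij)]
      _ ≤ _ := by
          apply mul_le_mul_of_nonneg_left _ (Nat.cast_nonneg V)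
          have := bessel hR0 G hGc (Finset.univ.biUnion A)
          simp only [← ha] at this
          exact this
  have h3 : ENNReal.ofReal (∫ y in cube d R, ‖G y‖ ^ 2) ≤ ENNReal.ofReal B * nrg M (inv F) x := by
    rw [ofReal_integral_eq_lintegral_ofReal (cube_integrable (by fun_prop))
      (Filter.Eventually.of_forall fun y => by positivity)]
    calc ∫⁻ y in cube d R, ENNReal.ofReal (‖G y‖ ^ 2) ≤ ∫⁻ y, ENNReal.ofReal (‖G y‖ ^ 2) :=
          setLIntegral_le_lintegral _ _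
      _ ≤ ∫⁻ y, ENNReal.ofReal B * (‖inv F (x - y)‖ₑ ^ (2 : ℝ) * ENNReal.ofReal (W M (x - y - x))) := by
          apply lintegral_mono
          intro y
          show ENNReal.ofReal (‖G y‖ ^ 2) ≤
            ENNReal.ofReal B * (‖inv F (x - y)‖ₑ ^ (2 : ℝ) * ENNReal.ofReal (W M (x - y - x)))
          have e1 : W M (x - y - x) = W M y := by
            unfold W
            rw [show x - y - x = -y by abel, norm_neg]
          rw [e1, hG, norm_mul, mul_pow]
          have e2 : ‖inv F (x - y)‖ₑ ^ (2 : ℝ) = ENNReal.ofReal (‖inv F (x - y)‖ ^ 2) := by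
            rw [← ofReal_norm, ENNReal.ofReal_rpow_of_nonneg (norm_nonneg _) (by norm_num)]
            norm_num
          rw [e2, ← ENNReal.ofReal_mul (by positivity), ← ENNReal.ofReal_mul hB0.le]
          apply ENNReal.ofReal_le_ofReal
          have e3 := mul_le_mul_of_nonneg_right (hB y) (by positivity : 0 ≤ ‖inv F (x - y)‖ ^ 2)
          linarith
      _ = ENNReal.ofReal B * ∫⁻ y, (‖inv F (x - y)‖ₑ ^ (2 : ℝ) * ENNReal.ofReal (W M (x - y - x))) := by
          rw [lintegral_const_mul' _ _ ENNReal.ofReal_ne_top]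
      _ = _ := by
          congr 1
          exact lintegral_sub_left_eq_self (fun z => ‖inv F z‖ₑ ^ (2 : ℝ) * ENNReal.ofReal (W M (z - x))) x
  have h4 : ∑ i, ‖inv (fun ξ => psi K (A i) ξ * F ξ) x‖ₑ ^ (2 : ℝ) =
      ENNReal.ofReal (∑ i, ‖inv (fun ξ => psi K (A i) ξ * F ξ) x‖ ^ 2) := by
    rw [ENNReal.ofReal_sum_of_nonneg (fun i _ => by positivity)]
    apply Finset.sum_congr rfl
    intro i _
    rw [← ofReal_norm, ENNReal.ofReal_rpow_of_nonneg (norm_nonneg _) (by norm_num)]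
    norm_num
  rw [h4]
  calc ENNReal.ofReal (∑ i, ‖inv (fun ξ => psi K (A i) ξ * F ξ) x‖ ^ 2) ≤
        ENNReal.ofReal (V * ((2 * R : ℝ) ^ d * ∫ y in cube d R, ‖G y‖ ^ 2)) := ENNReal.ofReal_le_ofReal h1
    _ = ENNReal.ofReal (V * (2 * R : ℝ) ^ d) * ENNReal.ofReal (∫ y in cube d R, ‖G y‖ ^ 2) := by
        rw [← mul_assoc, ENNReal.ofReal_mul (by positivity)]
    _ ≤ ENNReal.ofReal (V * (2 * R : ℝ) ^ d) * (ENNReal.ofReal B * nrg M (inv F) x) := mul_le_mul_right h3 _
    _ = _ := by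
        rw [← mul_assoc, ← ENNReal.ofReal_mul (by positivity)]
        congr 2
        ring

end Pool.Agent.N707.LSCAR
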